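import Mathlib

set_option autoImplicit false
set_option linter.unusedSimpArgs false
set_option linter.unusedVariables false
set_option linter.unusedTactic false
set_option linter.unusedSectionVars false
set_option maxHeartbeats 4000000

namespace Pool.Agent.Results.MP_0a7d83_co.DumbbellNFNumber

/-! ### Definitions used in the statement -/

/-- A simplicial complex on `V`: a family of finite subsets of `V` closed under taking subsets. -/
@[ext]
structure Cplx (V : Type*) where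
  /-- the faces -/
  faces : Set (Finset V)
  down : ∀ F ∈ faces, ∀ G : Finset V, G ⊆ F → G ∈ faces

/-- `F` is a facet of `Δ`: an inclusion-maximal face. -/
def IsFacet {V : Type*} (Δ : Cplx V) (F : Finset V) : Prop :=
  F ∈ Δ.faces ∧ ∀ G ∈ Δ.faces, F ⊆ G → G = F

/-- Isomorphism of complexes: a bijection of the vertex sets which preserves and reflects
faces. -/
def Iso {V W : Type*} (Δ : Cplx V) (Γ : Cplx W) : Prop :=
  ∃ π : V ≃ W, ∀ F : Finset V, F ∈ Δ.faces ↔ F.map π.toEmbedding ∈ Γ.faces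

/-- The facet ideal of `Δ` in `k[x_v : v ∈ V]`. -/
noncomputable def facetIdeal (k : Type*) [Field k] {V : Type*} (Δ : Cplx V) :
    Ideal (MvPolynomial V k) :=
  Ideal.span {f | ∃ F, IsFacet Δ F ∧ f = ∏ v ∈ F, MvPolynomial.X v}

/-- The NF-complex `δ(Δ)`: the subsets `F` of `V` such that `∏ v ∈ F, x_v` is not in the facet
ideal of `Δ`. -/
noncomputable def nfComplex (k : Type*) [Field k] {V : Type*} (Δ : Cplx V) : Cplx V where
  faces := {F | (∏ v ∈ F, MvPolynomial.X v) ∉ facetIdeal k Δ}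
  down := by
    classical
    intro F hF G hGF hG
    apply hF
    rw [← Finset.prod_sdiff hGF]
    exact Ideal.mul_mem_left _ _ hG

/-- A graph regarded as a complex: the faces are the subsets of edges. -/
def graphCplx {V : Type*} [DecidableEq V] (G : SimpleGraph V) : Cplx V where
  faces := {F | ∃ u v, G.Adj u v ∧ F ⊆ {u, v}}
  down := by
    rintro F ⟨u, v, huv, hF⟩ G' hG'
    exact ⟨u, v, huv, hG'.trans hF⟩

/-- Adjacency in the dumbbell graph on `A ∪ B = Fin n ⊕ Fin m`: all pairs inside `A`, all pairs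
inside `B`, and the bridge joining the first vertex of `A` to the first vertex of `B`. -/
def dumbbellAdj (n m : ℕ) : Fin n ⊕ Fin m → Fin n ⊕ Fin m → Prop
  | Sum.inl i, Sum.inl j => i ≠ j
  | Sum.inr i, Sum.inr j => i ≠ j
  | Sum.inl i, Sum.inr j => i.val = 0 ∧ j.val = 0
  | Sum.inr j, Sum.inl i => i.val = 0 ∧ j.val = 0

/-- The dumbbell graph `B_{n,m}`. -/
def dumbbell (n m : ℕ) : SimpleGraph (Fin n ⊕ Fin m) where
  Adj := dumbbellAdj n m
  symm := ⟨by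
    rintro (i | i) (j | j) h
    · exact fun h' => h h'.symm
    · exact h
    · exact h
    · exact fun h' => h h'.symm⟩
  loopless := ⟨by
    rintro (i | i) h
    · exact h rfl
    · exact h rfl⟩

/-! ### The NF-complex in combinatorial terms -/

lemma prod_X_eq {V : Type*} (k : Type*) [Field k] (F : Finset V) :
    (∏ v ∈ F, (MvPolynomial.X v : MvPolynomial V k)) =
      MvPolynomial.monomial (∑ v ∈ F, Finsupp.single v 1) 1 := by
  rw [MvPolynomial.monomial_sum_one]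
  rfl

lemma sum_single_le_iff {V : Type*} (F G : Finset V) :
    (∑ v ∈ G, Finsupp.single v 1 : V →₀ ℕ) ≤ ∑ v ∈ F, Finsupp.single v 1 ↔ G ⊆ F := by
  classical
  have key : ∀ (H : Finset V) (w : V),
      (∑ v ∈ H, Finsupp.single v 1 : V →₀ ℕ) w = if w ∈ H then 1 else 0 := by
    intro H w
    rw [Finsupp.finsetSum_apply]
    simp [Finsupp.single_apply]
  constructor
  · intro h w hw
    have := h w
    rw [key, key, if_pos hw] at this
    by_contra hcon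
    rw [if_neg hcon] at this
    omega
  · intro h w
    rw [key, key]
    by_cases hw : w ∈ G
    · rw [if_pos hw, if_pos (h hw)]
    · rw [if_neg hw]; exact Nat.zero_le _

lemma mem_nfComplex {V : Type*} (k : Type*) [Field k] (Δ : Cplx V) (F : Finset V) :
    F ∈ (nfComplex k Δ).faces ↔ ∀ G, IsFacet Δ G → ¬ G ⊆ F := by
  classical
  have h1 : facetIdeal k Δ = Ideal.span ((fun s => MvPolynomial.monomial s (1 : k)) ''
      {s | ∃ G, IsFacet Δ G ∧ s = ∑ v ∈ G, Finsupp.single v 1}) := by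
    unfold facetIdeal
    congr 1
    ext f
    constructor
    · rintro ⟨G, hG, rfl⟩
      exact ⟨_, ⟨G, hG, rfl⟩, (prod_X_eq k G).symm⟩
    · rintro ⟨s, ⟨G, hG, rfl⟩, rfl⟩
      exact ⟨G, hG, (prod_X_eq k G).symm⟩
  have h2 : (∏ v ∈ F, (MvPolynomial.X v : MvPolynomial V k)) ∈ facetIdeal k Δ ↔
      ∃ G, IsFacet Δ G ∧ G ⊆ F := by
    rw [h1, MvPolynomial.mem_ideal_span_monomial_image, prod_X_eq]
    have h3 : (MvPolynomial.monomial (∑ v ∈ F, Finsupp.single v 1) (1 : k)).support =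
        {∑ v ∈ F, Finsupp.single v 1} := by
      rw [MvPolynomial.support_monomial, if_neg one_ne_zero]
    rw [h3]
    constructor
    · intro h
      obtain ⟨s, ⟨G, hG, rfl⟩, hs⟩ := h _ (Finset.mem_singleton_self _)
      exact ⟨G, hG, (sum_single_le_iff F G).1 hs⟩
    · rintro ⟨G, hG, hGF⟩ xi hxi
      rw [Finset.mem_singleton] at hxi
      subst hxi
      exact ⟨_, ⟨G, hG, rfl⟩, (sum_single_le_iff F G).2 hGF⟩
  change ¬ _ ↔ _
  rw [h2]
  push Not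
  rfl

/-- down-closed inside the box -/
def DownB (N M : ℕ) (D : ℕ → ℕ → ℕ → ℕ → Prop) : Prop :=
  ∀ a b e h a' b' e' h', a ≤ N → b ≤ M → e ≤ 1 → h ≤ 1 → a' ≤ a → b' ≤ b → e' ≤ e → h' ≤ h →
    D a b e h → D a' b' e' h'

/-- single-step maximality -/
def MaxB (N M : ℕ) (D : ℕ → ℕ → ℕ → ℕ → Prop) (a b e h : ℕ) : Prop :=
  D a b e h ∧ (a < N → ¬ D (a + 1) b e h) ∧ (b < M → ¬ D a (b + 1) e h) ∧
    (e < 1 → ¬ D a b (e + 1) h) ∧ (h < 1 → ¬ D a b e (h + 1))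

/-- single-step minimality of the complement -/
def MinC (D : ℕ → ℕ → ℕ → ℕ → Prop) (a b e h : ℕ) : Prop :=
  ¬ D a b e h ∧ (0 < a → D (a - 1) b e h) ∧ (0 < b → D a (b - 1) e h) ∧
    (0 < e → D a b (e - 1) h) ∧ (0 < h → D a b e (h - 1))

/-- the step relation -/
def StepB (N M : ℕ) (D D' : ℕ → ℕ → ℕ → ℕ → Prop) : Prop :=
  ∀ a b e h, a ≤ N → b ≤ M → e ≤ 1 → h ≤ 1 → (MaxB N M D a b e h ↔ MinC D' a b e h)

/-- A predicate on quadruples given by its four slices. -/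
def mk4 (f00 f01 f10 f11 : ℕ → ℕ → Prop) (a b e h : ℕ) : Prop :=
  (e = 0 ∧ h = 0 ∧ f00 a b) ∨ (e = 0 ∧ h = 1 ∧ f01 a b) ∨ (e = 1 ∧ h = 0 ∧ f10 a b) ∨
    (e = 1 ∧ h = 1 ∧ f11 a b)

lemma mk4_00 (f00 f01 f10 f11 : ℕ → ℕ → Prop) (a b : ℕ) :
    mk4 f00 f01 f10 f11 a b 0 0 ↔ f00 a b := by simp [mk4]
lemma mk4_01 (f00 f01 f10 f11 : ℕ → ℕ → Prop) (a b : ℕ) :
    mk4 f00 f01 f10 f11 a b 0 1 ↔ f01 a b := by simp [mk4]
lemma mk4_10 (f00 f01 f10 f11 : ℕ → ℕ → Prop) (a b : ℕ) :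
    mk4 f00 f01 f10 f11 a b 1 0 ↔ f10 a b := by simp [mk4]
lemma mk4_11 (f00 f01 f10 f11 : ℕ → ℕ → Prop) (a b : ℕ) :
    mk4 f00 f01 f10 f11 a b 1 1 ↔ f11 a b := by simp [mk4]

lemma le_one_cases {e : ℕ} (h : e ≤ 1) : e = 0 ∨ e = 1 := by omega

def D0 : ℕ → ℕ → ℕ → ℕ → Prop :=
  mk4 (fun a b => a + b ≤ 1 ∨ (a = 0 ∧ b ≤ 2) ∨ (b = 0 ∧ a ≤ 2)) (fun a b => a = 0 ∧ b ≤ 1)
    (fun a b => b = 0 ∧ a ≤ 1) (fun a b => a = 0 ∧ b = 0)

def D1 : ℕ → ℕ → ℕ → ℕ → Prop :=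
  mk4 (fun a b => a ≤ 1 ∧ b ≤ 1) (fun a b => a ≤ 1 ∧ b = 0)
    (fun a b => b ≤ 1 ∧ a = 0) (fun a _ => a + 1 ≤ 0)

def D2 : ℕ → ℕ → ℕ → ℕ → Prop :=
  mk4 (fun a b => a = 0 ∨ b = 0) (fun a b => a = 0) (fun a b => b = 0) (fun a b => a = 0 ∧ b = 0)

def D3 (N M : ℕ) : ℕ → ℕ → ℕ → ℕ → Prop :=
  mk4 (fun a _ => 0 ≤ a) (fun a b => b < M) (fun a b => a < N) (fun a _ => a + 1 ≤ 0)

def D4 (N M : ℕ) : ℕ → ℕ → ℕ → ℕ → Prop :=
  mk4 (fun a b => a < N ∨ b < M) (fun a b => a < N ∨ b + 2 ≤ M) (fun a b => b < M ∨ a + 2 ≤ N)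
    (fun a b => a + b + 2 ≤ N + M)

def DS (N M s : ℕ) : ℕ → ℕ → ℕ → ℕ → Prop :=
  mk4 (fun a b => a + b + s ≤ N + M + 1 ∨ (a = 0 ∧ b + s ≤ N + M + 2) ∨
      (b = 0 ∧ a + s ≤ N + M + 2))
    (fun a b => (a + b + s ≤ N + M ∧ ¬ (b = M ∧ a + b + s = N + M)) ∨
      (a = 0 ∧ b + s ≤ N + M + 1 ∧ N + 1 ≤ s))
    (fun a b => (a + b + s ≤ N + M ∧ ¬ (a = N ∧ a + b + s = N + M)) ∨
      (b = 0 ∧ a + s ≤ N + M + 1 ∧ M + 1 ≤ s))
    (fun a b => a + b + 2 + s ≤ N + M)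

lemma step_mk4 (N M : ℕ) (f00 f01 f10 f11 g00 g01 g10 g11 : ℕ → ℕ → Prop)
    (H00 : ∀ a b, a ≤ N → b ≤ M → ((f00 a b ∧ (a < N → ¬ f00 (a + 1) b) ∧
      (b < M → ¬ f00 a (b + 1)) ∧ ¬ f10 a b ∧ ¬ f01 a b) ↔ (¬ g00 a b ∧ (0 < a → g00 (a - 1) b) ∧
      (0 < b → g00 a (b - 1)))))
    (H01 : ∀ a b, a ≤ N → b ≤ M → ((f01 a b ∧ (a < N → ¬ f01 (a + 1) b) ∧
      (b < M → ¬ f01 a (b + 1)) ∧ ¬ f11 a b) ↔ (¬ g01 a b ∧ (0 < a → g01 (a - 1) b) ∧
      (0 < b → g01 a (b - 1)) ∧ g00 a b)))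
    (H10 : ∀ a b, a ≤ N → b ≤ M → ((f10 a b ∧ (a < N → ¬ f10 (a + 1) b) ∧
      (b < M → ¬ f10 a (b + 1)) ∧ ¬ f11 a b) ↔ (¬ g10 a b ∧ (0 < a → g10 (a - 1) b) ∧
      (0 < b → g10 a (b - 1)) ∧ g00 a b)))
    (H11 : ∀ a b, a ≤ N → b ≤ M → ((f11 a b ∧ (a < N → ¬ f11 (a + 1) b) ∧
      (b < M → ¬ f11 a (b + 1))) ↔ (¬ g11 a b ∧ (0 < a → g11 (a - 1) b) ∧
      (0 < b → g11 a (b - 1)) ∧ g01 a b ∧ g10 a b))) :
    StepB N M (mk4 f00 f01 f10 f11) (mk4 g00 g01 g10 g11) := by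
  intro a b e h ha hb he hh
  rcases le_one_cases he with rfl | rfl <;> rcases le_one_cases hh with rfl | rfl
  · simp only [MaxB, MinC, mk4_00, mk4_01, mk4_10, mk4_11, Nat.zero_add, Nat.zero_lt_one,
      forall_const, Nat.lt_irrefl, false_imp_iff, and_true, true_and, Nat.sub_self]
    exact H00 a b ha hb
  · simp only [MaxB, MinC, mk4_00, mk4_01, mk4_10, mk4_11, Nat.zero_add, Nat.zero_lt_one,
      forall_const, Nat.lt_irrefl, false_imp_iff, and_true, true_and, Nat.sub_self]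
    exact H01 a b ha hb
  · simp only [MaxB, MinC, mk4_00, mk4_01, mk4_10, mk4_11, Nat.zero_add, Nat.zero_lt_one,
      forall_const, Nat.lt_irrefl, false_imp_iff, and_true, true_and, Nat.sub_self]
    exact H10 a b ha hb
  · simp only [MaxB, MinC, mk4_00, mk4_01, mk4_10, mk4_11, Nat.zero_add, Nat.zero_lt_one,
      forall_const, Nat.lt_irrefl, false_imp_iff, and_true, true_and, Nat.sub_self]
    exact H11 a b ha hb

lemma down_mk4 (N M : ℕ) (f00 f01 f10 f11 : ℕ → ℕ → Prop)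
    (H00 : ∀ a b a' b', a ≤ N → b ≤ M → a' ≤ a → b' ≤ b → f00 a b → f00 a' b')
    (H01 : ∀ a b a' b', a ≤ N → b ≤ M → a' ≤ a → b' ≤ b → f01 a b → f01 a' b')
    (H10 : ∀ a b a' b', a ≤ N → b ≤ M → a' ≤ a → b' ≤ b → f10 a b → f10 a' b')
    (H11 : ∀ a b a' b', a ≤ N → b ≤ M → a' ≤ a → b' ≤ b → f11 a b → f11 a' b')
    (K01 : ∀ a b, a ≤ N → b ≤ M → f01 a b → f00 a b)
    (K10 : ∀ a b, a ≤ N → b ≤ M → f10 a b → f00 a b)
    (K0 : ∀ a b, a ≤ N → b ≤ M → f11 a b → f01 a b)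
    (K1 : ∀ a b, a ≤ N → b ≤ M → f11 a b → f10 a b) :
    DownB N M (mk4 f00 f01 f10 f11) := by
  intro a b e h a' b' e' h' ha hb he hh ha' hb' he' hh' H
  rcases le_one_cases he with rfl | rfl <;> rcases le_one_cases hh with rfl | rfl <;>
  rcases le_one_cases (he'.trans he) with rfl | rfl <;>
  rcases le_one_cases (hh'.trans hh) with rfl | rfl <;>
  (try omega) <;>
  simp only [mk4_00, mk4_01, mk4_10, mk4_11] at H ⊢
  · exact H00 a b a' b' ha hb ha' hb' H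
  · exact H00 a b a' b' ha hb ha' hb' (K01 a b ha hb H)
  · exact H01 a b a' b' ha hb ha' hb' H
  · exact H00 a b a' b' ha hb ha' hb' (K10 a b ha hb H)
  · exact H10 a b a' b' ha hb ha' hb' H
  · exact H00 a b a' b' ha hb ha' hb' (K10 a b ha hb (K1 a b ha hb H))
  · exact H01 a b a' b' ha hb ha' hb' (K0 a b ha hb H)
  · exact H10 a b a' b' ha hb ha' hb' (K1 a b ha hb H)
  · exact H11 a b a' b' ha hb ha' hb' H

lemma down0 (N M : ℕ) : DownB N M D0 := by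
  apply down_mk4 <;> intros <;> beta_reduce at * <;> omega
lemma down1 (N M : ℕ) : DownB N M D1 := by
  apply down_mk4 <;> intros <;> beta_reduce at * <;> omega
lemma down2 (N M : ℕ) : DownB N M D2 := by
  apply down_mk4 <;> intros <;> beta_reduce at * <;> omega
lemma down3 (N M : ℕ) : DownB N M (D3 N M) := by
  apply down_mk4 <;> intros <;> beta_reduce at * <;> omega
lemma down4 (N M : ℕ) (hN : 1 ≤ N) (hM : 1 ≤ M) : DownB N M (D4 N M) := by
  apply down_mk4 <;> intros <;> beta_reduce at * <;> omega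
lemma downS (N M s : ℕ) (hN : 1 ≤ N) (hM : 1 ≤ M) : DownB N M (DS N M s) := by
  apply down_mk4 <;> intros <;> beta_reduce at * <;> omega

lemma step01 (N M : ℕ) (hN : 1 ≤ N) (hM : 1 ≤ M) : StepB N M D0 D1 := by
  apply step_mk4 <;> intro a b ha hb <;> beta_reduce <;> constructor
  · rintro ⟨h1, h2, h3, h4, h5⟩
    refine ⟨?_, ?_, ?_⟩ <;> omega
  · rintro ⟨h1, h2, h3⟩
    refine ⟨?_, ?_, ?_, ?_, ?_⟩ <;> omega
  · rintro ⟨h1, h2, h3, h4⟩
    refine ⟨?_, ?_, ?_, ?_⟩ <;> omega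
  · rintro ⟨h1, h2, h3, h4⟩
    refine ⟨?_, ?_, ?_, ?_⟩ <;> omega
  · rintro ⟨h1, h2, h3, h4⟩
    refine ⟨?_, ?_, ?_, ?_⟩ <;> omega
  · rintro ⟨h1, h2, h3, h4⟩
    refine ⟨?_, ?_, ?_, ?_⟩ <;> omega
  · rintro ⟨h1, h2, h3⟩
    refine ⟨?_, ?_, ?_, ?_, ?_⟩ <;> omega
  · rintro ⟨h1, h2, h3, h4, h5⟩
    refine ⟨?_, ?_, ?_⟩ <;> omega
lemma step12 (N M : ℕ) (hN : 1 ≤ N) (hM : 1 ≤ M) : StepB N M D1 D2 := by
  apply step_mk4 <;> intro a b ha hb <;> beta_reduce <;> constructor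
  · rintro ⟨h1, h2, h3, h4, h5⟩
    refine ⟨?_, ?_, ?_⟩ <;> omega
  · rintro ⟨h1, h2, h3⟩
    refine ⟨?_, ?_, ?_, ?_, ?_⟩ <;> omega
  · rintro ⟨h1, h2, h3, h4⟩
    refine ⟨?_, ?_, ?_, ?_⟩ <;> omega
  · rintro ⟨h1, h2, h3, h4⟩
    refine ⟨?_, ?_, ?_, ?_⟩ <;> omega
  · rintro ⟨h1, h2, h3, h4⟩
    refine ⟨?_, ?_, ?_, ?_⟩ <;> omega
  · rintro ⟨h1, h2, h3, h4⟩
    refine ⟨?_, ?_, ?_, ?_⟩ <;> omega
  · rintro ⟨h1, h2, h3⟩
    refine ⟨?_, ?_, ?_, ?_, ?_⟩ <;> omega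
  · rintro ⟨h1, h2, h3, h4, h5⟩
    refine ⟨?_, ?_, ?_⟩ <;> omega
lemma step23 (N M : ℕ) (hN : 1 ≤ N) (hM : 1 ≤ M) : StepB N M D2 (D3 N M) := by
  apply step_mk4 <;> intro a b ha hb <;> beta_reduce <;> constructor
  · rintro ⟨h1, h2, h3, h4, h5⟩
    refine ⟨?_, ?_, ?_⟩ <;> omega
  · rintro ⟨h1, h2, h3⟩
    refine ⟨?_, ?_, ?_, ?_, ?_⟩ <;> omega
  · rintro ⟨h1, h2, h3, h4⟩
    refine ⟨?_, ?_, ?_, ?_⟩ <;> omega
  · rintro ⟨h1, h2, h3, h4⟩
    refine ⟨?_, ?_, ?_, ?_⟩ <;> omega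
  · rintro ⟨h1, h2, h3, h4⟩
    refine ⟨?_, ?_, ?_, ?_⟩ <;> omega
  · rintro ⟨h1, h2, h3, h4⟩
    refine ⟨?_, ?_, ?_, ?_⟩ <;> omega
  · rintro ⟨h1, h2, h3⟩
    refine ⟨?_, ?_, ?_, ?_, ?_⟩ <;> omega
  · rintro ⟨h1, h2, h3, h4, h5⟩
    refine ⟨?_, ?_, ?_⟩ <;> omega
lemma step34 (N M : ℕ) (hN : 1 ≤ N) (hM : 1 ≤ M) : StepB N M (D3 N M) (D4 N M) := by
  apply step_mk4 <;> intro a b ha hb <;> beta_reduce <;> constructor
  · rintro ⟨h1, h2, h3, h4, h5⟩
    refine ⟨?_, ?_, ?_⟩ <;> omega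
  · rintro ⟨h1, h2, h3⟩
    refine ⟨?_, ?_, ?_, ?_, ?_⟩ <;> omega
  · rintro ⟨h1, h2, h3, h4⟩
    refine ⟨?_, ?_, ?_, ?_⟩ <;> omega
  · rintro ⟨h1, h2, h3, h4⟩
    refine ⟨?_, ?_, ?_, ?_⟩ <;> omega
  · rintro ⟨h1, h2, h3, h4⟩
    refine ⟨?_, ?_, ?_, ?_⟩ <;> omega
  · rintro ⟨h1, h2, h3, h4⟩
    refine ⟨?_, ?_, ?_, ?_⟩ <;> omega
  · rintro ⟨h1, h2, h3⟩
    refine ⟨?_, ?_, ?_, ?_, ?_⟩ <;> omega
  · rintro ⟨h1, h2, h3, h4, h5⟩
    refine ⟨?_, ?_, ?_⟩ <;> omega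
lemma step4S (N M : ℕ) (hN : 1 ≤ N) (hM : 1 ≤ M) (h : 3 ≤ N + M) : StepB N M (D4 N M) (DS N M 1) := by
  apply step_mk4 <;> intro a b ha hb <;> beta_reduce <;> constructor
  · rintro ⟨h1, h2, h3, h4, h5⟩
    refine ⟨?_, ?_, ?_⟩ <;> omega
  · rintro ⟨h1, h2, h3⟩
    refine ⟨?_, ?_, ?_, ?_, ?_⟩ <;> omega
  · rintro ⟨h1, h2, h3, h4⟩
    refine ⟨?_, ?_, ?_, ?_⟩ <;> omega
  · rintro ⟨h1, h2, h3, h4⟩
    refine ⟨?_, ?_, ?_, ?_⟩ <;> omega
  · rintro ⟨h1, h2, h3, h4⟩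
    refine ⟨?_, ?_, ?_, ?_⟩ <;> omega
  · rintro ⟨h1, h2, h3, h4⟩
    refine ⟨?_, ?_, ?_, ?_⟩ <;> omega
  · rintro ⟨h1, h2, h3⟩
    refine ⟨?_, ?_, ?_, ?_, ?_⟩ <;> omega
  · rintro ⟨h1, h2, h3, h4, h5⟩
    refine ⟨?_, ?_, ?_⟩ <;> omega
lemma stepSS (N M s : ℕ) (hN : 1 ≤ N) (hM : 1 ≤ M) (hs : 1 ≤ s) (hsT : s + 2 ≤ N + M) :
    StepB N M (DS N M s) (DS N M (s + 1)) := by
  apply step_mk4 <;> intro a b ha hb <;> beta_reduce <;> constructor
  · rintro ⟨h1, h2, h3, h4, h5⟩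
    refine ⟨?_, ?_, ?_⟩ <;> omega
  · rintro ⟨h1, h2, h3⟩
    refine ⟨?_, ?_, ?_, ?_, ?_⟩ <;> omega
  · rintro ⟨h1, h2, h3, h4⟩
    refine ⟨?_, ?_, ?_, ?_⟩ <;> omega
  · rintro ⟨h1, h2, h3, h4⟩
    refine ⟨?_, ?_, ?_, ?_⟩ <;> omega
  · rintro ⟨h1, h2, h3, h4⟩
    refine ⟨?_, ?_, ?_, ?_⟩ <;> omega
  · rintro ⟨h1, h2, h3, h4⟩
    refine ⟨?_, ?_, ?_, ?_⟩ <;> omega
  · rintro ⟨h1, h2, h3⟩
    refine ⟨?_, ?_, ?_, ?_, ?_⟩ <;> omega
  · rintro ⟨h1, h2, h3, h4, h5⟩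
    refine ⟨?_, ?_, ?_⟩ <;> omega
lemma stepS0 (N M : ℕ) (hN : 1 ≤ N) (hM : 1 ≤ M) (h : 3 ≤ N + M) :
    StepB N M (DS N M (N + M - 1)) D0 := by
  apply step_mk4 <;> intro a b ha hb <;> beta_reduce <;> constructor
  · rintro ⟨h1, h2, h3, h4, h5⟩
    refine ⟨?_, ?_, ?_⟩ <;> omega
  · rintro ⟨h1, h2, h3⟩
    refine ⟨?_, ?_, ?_, ?_, ?_⟩ <;> omega
  · rintro ⟨h1, h2, h3, h4⟩
    refine ⟨?_, ?_, ?_, ?_⟩ <;> omega
  · rintro ⟨h1, h2, h3, h4⟩
    refine ⟨?_, ?_, ?_, ?_⟩ <;> omega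
  · rintro ⟨h1, h2, h3, h4⟩
    refine ⟨?_, ?_, ?_, ?_⟩ <;> omega
  · rintro ⟨h1, h2, h3, h4⟩
    refine ⟨?_, ?_, ?_, ?_⟩ <;> omega
  · rintro ⟨h1, h2, h3⟩
    refine ⟨?_, ?_, ?_, ?_, ?_⟩ <;> omega
  · rintro ⟨h1, h2, h3, h4, h5⟩
    refine ⟨?_, ?_, ?_⟩ <;> omega

/-! ### Types of finite sets -/

section Types

variable {V : Type*} [Fintype V] [DecidableEq V] (cls : V → Fin 4)

/-- The number of elements of `F` in class `j`. -/
def ty (F : Finset V) (j : Fin 4) : ℕ := (F.filter (fun v => cls v = j)).card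

/-- The type of `F` satisfies the predicate `D`. -/
def TyP (D : ℕ → ℕ → ℕ → ℕ → Prop) (F : Finset V) : Prop :=
  D (ty cls F 0) (ty cls F 1) (ty cls F 2) (ty cls F 3)

lemma ty_mono {F G : Finset V} (h : F ⊆ G) (j : Fin 4) : ty cls F j ≤ ty cls G j :=
  Finset.card_le_card (Finset.filter_subset_filter _ h)

lemma ty_insert {F : Finset V} {v : V} (hv : v ∉ F) (j : Fin 4) :
    ty cls (insert v F) j = ty cls F j + if cls v = j then 1 else 0 := by
  unfold ty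
  rw [Finset.filter_insert]
  split_ifs with h
  · rw [Finset.card_insert_of_notMem]
    intro hh
    exact hv (Finset.mem_filter.1 hh).1
  · rfl

lemma ty_erase {F : Finset V} {v : V} (hv : v ∈ F) (j : Fin 4) :
    ty cls (F.erase v) j = ty cls F j - if cls v = j then 1 else 0 := by
  have h := ty_insert cls (Finset.notMem_erase v F) j
  rw [Finset.insert_erase hv] at h
  omega

lemma exists_notMem {F : Finset V} {j : Fin 4} (h : ty cls F j < ty cls Finset.univ j) :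
    ∃ v, v ∉ F ∧ cls v = j := by
  by_contra hcon
  push Not at hcon
  have : (Finset.univ.filter (fun v => cls v = j)) ⊆ F.filter (fun v => cls v = j) := by
    intro v hv
    have hv2 := (Finset.mem_filter.1 hv).2
    refine Finset.mem_filter.2 ⟨?_, hv2⟩
    by_contra hvF
    exact hcon v hvF hv2
  have := Finset.card_le_card this
  unfold ty at h
  omega

lemma exists_mem {F : Finset V} {j : Fin 4} (h : 0 < ty cls F j) :
    ∃ v, v ∈ F ∧ cls v = j := by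
  obtain ⟨v, hv⟩ := Finset.card_pos.1 h
  exact ⟨v, (Finset.mem_filter.1 hv).1, (Finset.mem_filter.1 hv).2⟩

lemma card_eq_ty (F : Finset V) :
    F.card = ty cls F 0 + ty cls F 1 + ty cls F 2 + ty cls F 3 := by
  have := Finset.card_eq_sum_card_fiberwise (f := cls) (s := F) (t := Finset.univ)
    (fun _ _ => Finset.mem_coe.2 (Finset.mem_univ _))
  rw [this, Fin.sum_univ_four]
  rfl

lemma exists_ty (q : Fin 4 → ℕ) (hq : ∀ j, q j ≤ ty cls Finset.univ j) :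
    ∃ F : Finset V, ∀ j, ty cls F j = q j := by
  have h : ∀ j, ∃ S : Finset V, S ⊆ Finset.univ.filter (fun v => cls v = j) ∧ S.card = q j :=
    fun j => Finset.exists_subset_card_eq (hq j)
  choose S hS hS2 using h
  refine ⟨Finset.univ.filter (fun v => v ∈ S (cls v)), fun j => ?_⟩
  rw [← hS2 j]
  unfold ty
  congr 1
  ext v
  simp only [Finset.mem_filter, Finset.mem_univ, true_and]
  constructor
  · rintro ⟨h1, rfl⟩
    exact h1
  · intro h1
    have := (Finset.mem_filter.1 (hS j h1)).2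
    subst this
    exact ⟨h1, rfl⟩

lemma exists_min_sub (P : Finset V → Prop) : ∀ F : Finset V, ¬ P F →
    ∃ G, G ⊆ F ∧ ¬ P G ∧ ∀ v ∈ G, P (G.erase v) := by
  intro F
  induction F using Finset.strongInduction with
  | H F ih =>
    intro hF
    by_cases h : ∀ v ∈ F, P (F.erase v)
    · exact ⟨F, Finset.Subset.refl _, hF, h⟩
    · push Not at h
      obtain ⟨v, hv, hPv⟩ := h
      obtain ⟨G, hG, hG2, hG3⟩ := ih _ (Finset.erase_ssubset hv) hPv
      exact ⟨G, hG.trans (Finset.erase_subset _ _), hG2, hG3⟩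

variable (N M : ℕ)

/-- The class sizes. -/
def Sizes : Prop := ty cls Finset.univ 0 = N ∧ ty cls Finset.univ 1 = M ∧
  ty cls Finset.univ 2 = 1 ∧ ty cls Finset.univ 3 = 1

variable {cls N M}

lemma Sizes.le (hs : Sizes cls N M) (F : Finset V) :
    ty cls F 0 ≤ N ∧ ty cls F 1 ≤ M ∧ ty cls F 2 ≤ 1 ∧ ty cls F 3 ≤ 1 := by
  obtain ⟨h0, h1, h2, h3⟩ := hs
  have := fun j => ty_mono cls (Finset.subset_univ F) j
  have k0 := this 0
  have k1 := this 1
  have k2 := this 2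
  have k3 := this 3
  omega

lemma TyP.mono (hs : Sizes cls N M) {D : ℕ → ℕ → ℕ → ℕ → Prop} (hD : DownB N M D)
    {F G : Finset V} (h : G ⊆ F) (hF : TyP cls D F) : TyP cls D G := by
  obtain ⟨h0, h1, h2, h3⟩ := hs.le F
  exact hD _ _ _ _ _ _ _ _ h0 h1 h2 h3 (ty_mono cls h 0) (ty_mono cls h 1) (ty_mono cls h 2)
    (ty_mono cls h 3) hF

lemma fin4_cases (j : Fin 4) : j = 0 ∨ j = 1 ∨ j = 2 ∨ j = 3 := by
  fin_cases j <;> simp

theorem transfer (hs : Sizes cls N M) {D D' : ℕ → ℕ → ℕ → ℕ → Prop} (hD : DownB N M D)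
    (hD' : DownB N M D') (hstep : StepB N M D D') (k : Type*) [Field k] (Δ : Cplx V)
    (hΔ : ∀ F, F ∈ Δ.faces ↔ TyP cls D F) (F : Finset V) :
    F ∈ (nfComplex k Δ).faces ↔ TyP cls D' F := by
  rw [mem_nfComplex]
  constructor
  · intro h
    by_contra hcon
    obtain ⟨G, hGF, hG, hG2⟩ := exists_min_sub (TyP cls D') F hcon
    refine h G ?_ hGF
    obtain ⟨l0, l1, l2, l3⟩ := hs.le G
    have hmin : MinC D' (ty cls G 0) (ty cls G 1) (ty cls G 2) (ty cls G 3) := by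
      refine ⟨hG, ?_, ?_, ?_, ?_⟩
      · intro h0
        obtain ⟨v, hv, hc⟩ := exists_mem cls h0
        have := hG2 v hv
        simpa [TyP, ty_erase cls hv, hc] using this
      · intro h0
        obtain ⟨v, hv, hc⟩ := exists_mem cls h0
        have := hG2 v hv
        simpa [TyP, ty_erase cls hv, hc] using this
      · intro h0
        obtain ⟨v, hv, hc⟩ := exists_mem cls h0
        have := hG2 v hv
        simpa [TyP, ty_erase cls hv, hc] using this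
      · intro h0
        obtain ⟨v, hv, hc⟩ := exists_mem cls h0
        have := hG2 v hv
        simpa [TyP, ty_erase cls hv, hc] using this
    obtain ⟨m0, m1, m2, m3, m4⟩ := (hstep _ _ _ _ l0 l1 l2 l3).2 hmin
    refine ⟨(hΔ G).2 m0, ?_⟩
    intro G' hG' hGG'
    by_contra hne
    obtain ⟨v, hv, hvG⟩ : ∃ v ∈ G', v ∉ G := by
      by_contra hc
      push Not at hc
      exact hne (Finset.Subset.antisymm hc hGG')
    have hins : TyP cls D (insert v G) :=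
      TyP.mono hs hD (Finset.insert_subset hv hGG') ((hΔ G').1 hG')
    obtain ⟨i0, i1, i2, i3⟩ := hs.le (insert v G)
    rw [ty_insert cls hvG] at i0 i1 i2 i3
    rcases fin4_cases (cls v) with hc | hc | hc | hc
    · simp [hc] at i0
      refine m1 (by omega) ?_
      simpa [TyP, ty_insert cls hvG, hc] using hins
    · simp [hc] at i1
      refine m2 (by omega) ?_
      simpa [TyP, ty_insert cls hvG, hc] using hins
    · simp only [hc, if_true] at i2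
      refine m3 (by omega) ?_
      simpa [TyP, ty_insert cls hvG, hc] using hins
    · simp only [hc, if_true] at i3
      refine m4 (by omega) ?_
      simpa [TyP, ty_insert cls hvG, hc] using hins
  · intro hF G hG hGF
    have hG' : TyP cls D' G := TyP.mono hs hD' hGF hF
    obtain ⟨l0, l1, l2, l3⟩ := hs.le G
    obtain ⟨s0, s1, s2, s3⟩ := hs
    have key : ∀ v, v ∉ G → ¬ TyP cls D (insert v G) := by
      intro v hv hT
      have := hG.2 _ ((hΔ _).2 hT) (Finset.subset_insert v G)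
      exact hv (this ▸ Finset.mem_insert_self v G)
    have hmax : MaxB N M D (ty cls G 0) (ty cls G 1) (ty cls G 2) (ty cls G 3) := by
      refine ⟨(hΔ G).1 hG.1, ?_, ?_, ?_, ?_⟩
      · intro h0 hT
        obtain ⟨v, hv, hc⟩ := exists_notMem cls (F := G) (j := 0) (by omega)
        refine key v hv ?_
        simpa [TyP, ty_insert cls hv, hc] using hT
      · intro h0 hT
        obtain ⟨v, hv, hc⟩ := exists_notMem cls (F := G) (j := 1) (by omega)
        refine key v hv ?_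
        simpa [TyP, ty_insert cls hv, hc] using hT
      · intro h0 hT
        obtain ⟨v, hv, hc⟩ := exists_notMem cls (F := G) (j := 2) (by omega)
        refine key v hv ?_
        simpa [TyP, ty_insert cls hv, hc] using hT
      · intro h0 hT
        obtain ⟨v, hv, hc⟩ := exists_notMem cls (F := G) (j := 3) (by omega)
        refine key v hv ?_
        simpa [TyP, ty_insert cls hv, hc] using hT
    exact ((hstep _ _ _ _ l0 l1 l2 l3).1 hmax).1 hG'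

end Types


/-! ### The dumbbell graph -/

/-- The four classes of vertices. -/
def cl (n m : ℕ) : Fin n ⊕ Fin m → Fin 4
  | Sum.inl i => if i.val = 0 then 2 else 0
  | Sum.inr j => if j.val = 0 then 3 else 1

lemma sizes (N M : ℕ) : Sizes (cl (N + 1) (M + 1)) N M := by
  unfold Sizes ty
  refine ⟨?_, ?_, ?_, ?_⟩ <;>
  rw [Finset.card_filter, Fintype.sum_sum_type, Fin.sum_univ_succ, Fin.sum_univ_succ] <;>
  simp [cl]

lemma ty_pair {V : Type*} [Fintype V] [DecidableEq V] (cls : V → Fin 4) {u v : V} (h : u ≠ v)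
    (j : Fin 4) :
    ty cls {u, v} j = (if cls v = j then 1 else 0) + (if cls u = j then 1 else 0) := by
  rw [ty_insert cls (by simpa using h)]
  congr 1
  have := ty_insert cls (Finset.notMem_empty v) j
  rw [insert_empty_eq] at this
  rw [this]
  simp [ty]

lemma pair_D0 (N M : ℕ) {u v : Fin (N + 1) ⊕ Fin (M + 1)} (h : u ≠ v) :
    TyP (cl (N + 1) (M + 1)) D0 {u, v} ↔ (dumbbell (N + 1) (M + 1)).Adj u v := by
  unfold TyP
  simp only [ty_pair _ h]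
  rcases u with i | i <;> rcases v with j | j <;>
  by_cases hi : i.val = 0 <;> by_cases hj : j.val = 0 <;>
  simp [cl, hi, hj, D0, mk4, dumbbell, dumbbellAdj]
  · exact Fin.ext (hi.trans hj.symm)
  · exact fun hij => h (by rw [hij])
  · exact fun hij => h (by rw [hij])
  · exact fun hij => h (by rw [hij])
  · exact Fin.ext (hi.trans hj.symm)
  · exact fun hij => h (by rw [hij])
  · exact fun hij => h (by rw [hij])
  · exact fun hij => h (by rw [hij])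

lemma pair_D1 (N M : ℕ) {u v : Fin (N + 1) ⊕ Fin (M + 1)} (h : u ≠ v)
    (hT : TyP (cl (N + 1) (M + 1)) D1 {u, v}) : u.isLeft ≠ v.isLeft := by
  unfold TyP at hT
  simp only [ty_pair _ h] at hT
  rcases u with i | i <;> rcases v with j | j <;>
  by_cases hi : i.val = 0 <;> by_cases hj : j.val = 0 <;>
  simp [cl, hi, hj, D1, mk4] at hT ⊢

lemma exists_adj (N M : ℕ) (hN : 1 ≤ N) (hM : 1 ≤ M) (w : Fin (N + 1) ⊕ Fin (M + 1)) :
    ∃ v, (dumbbell (N + 1) (M + 1)).Adj w v := by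
  have : Nontrivial (Fin (N + 1)) := Fin.nontrivial_iff_two_le.2 (by omega)
  have : Nontrivial (Fin (M + 1)) := Fin.nontrivial_iff_two_le.2 (by omega)
  rcases w with i | i
  · obtain ⟨j, hj⟩ := exists_ne i
    exact ⟨Sum.inl j, hj.symm⟩
  · obtain ⟨j, hj⟩ := exists_ne i
    exact ⟨Sum.inr j, hj.symm⟩

lemma mem_B (N M : ℕ) (hN : 1 ≤ N) (hM : 1 ≤ M) (F : Finset (Fin (N + 1) ⊕ Fin (M + 1))) :
    F ∈ (graphCplx (dumbbell (N + 1) (M + 1))).faces ↔ TyP (cl (N + 1) (M + 1)) D0 F := by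
  constructor
  · rintro ⟨u, v, huv, hF⟩
    exact TyP.mono (sizes N M) (down0 N M) hF ((pair_D0 N M huv.ne).2 huv)
  · intro h
    have hc := card_eq_ty (cl (N + 1) (M + 1)) F
    have h2 : F.card ≤ 2 := by
      rw [hc]
      unfold TyP D0 mk4 at h
      omega
    have h3 : F.card = 0 ∨ F.card = 1 ∨ F.card = 2 := by omega
    rcases h3 with h3 | h3 | h3
    · rw [Finset.card_eq_zero] at h3
      subst h3
      obtain ⟨v, hv⟩ := exists_adj N M hN hM (Sum.inl 0)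
      exact ⟨_, v, hv, Finset.empty_subset _⟩
    · rw [Finset.card_eq_one] at h3
      obtain ⟨w, rfl⟩ := h3
      obtain ⟨v, hv⟩ := exists_adj N M hN hM w
      exact ⟨w, v, hv, by simp⟩
    · rw [Finset.card_eq_two] at h3
      obtain ⟨u, v, huv, rfl⟩ := h3
      exact ⟨u, v, (pair_D0 N M huv).1 h, Finset.Subset.refl _⟩

lemma card_le_two (N M : ℕ) (F : Finset (Fin (N + 1) ⊕ Fin (M + 1)))
    (hF : F ∈ (graphCplx (dumbbell (N + 1) (M + 1))).faces) : F.card ≤ 2 := by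
  obtain ⟨u, v, -, hF⟩ := hF
  exact (Finset.card_le_card hF).trans Finset.card_le_two

/-- The sequence of predicates describing `δ^(k)(B_{n,m})`. -/
def Dseq (N M : ℕ) : ℕ → ℕ → ℕ → ℕ → ℕ → Prop
  | 0 => D0
  | 1 => D1
  | 2 => D2
  | 3 => D3 N M
  | 4 => D4 N M
  | k + 5 => if k + 2 ≤ N + M then DS N M (k + 1) else D0

lemma down_seq (N M : ℕ) (hN : 1 ≤ N) (hM : 1 ≤ M) (k : ℕ) : DownB N M (Dseq N M k) := by
  match k with
  | 0 => exact down0 N M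
  | 1 => exact down1 N M
  | 2 => exact down2 N M
  | 3 => exact down3 N M
  | 4 => exact down4 N M hN hM
  | k + 5 =>
    simp only [Dseq]
    split_ifs
    · exact downS N M _ hN hM
    · exact down0 N M

lemma step_seq (N M : ℕ) (hN : 1 ≤ N) (hM : 1 ≤ M) (hT : 3 ≤ N + M) (k : ℕ)
    (hk : k + 1 ≤ N + M + 4) : StepB N M (Dseq N M k) (Dseq N M (k + 1)) := by
  match k with
  | 0 => exact step01 N M hN hM
  | 1 => exact step12 N M hN hM
  | 2 => exact step23 N M hN hM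
  | 3 => exact step34 N M hN hM
  | 4 =>
    simp only [Dseq]
    rw [if_pos (by omega)]
    exact step4S N M hN hM hT
  | k + 5 =>
    simp only [Dseq]
    rw [if_pos (by omega)]
    by_cases h : k + 3 ≤ N + M
    · rw [if_pos (by omega)]
      exact stepSS N M (k + 1) hN hM (by omega) (by omega)
    · rw [if_neg (by omega)]
      have : k + 1 = N + M - 1 := by omega
      rw [this]
      exact stepS0 N M hN hM hT

lemma iter_mem (N M : ℕ) (hN : 1 ≤ N) (hM : 1 ≤ M) (hT : 3 ≤ N + M) (K : Type*) [Field K]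
    (k : ℕ) (hk : k ≤ N + M + 4) (F : Finset (Fin (N + 1) ⊕ Fin (M + 1))) :
    F ∈ ((nfComplex K)^[k] (graphCplx (dumbbell (N + 1) (M + 1)))).faces ↔
      TyP (cl (N + 1) (M + 1)) (Dseq N M k) F := by
  induction k generalizing F with
  | zero => exact mem_B N M hN hM F
  | succ k ih =>
    rw [Function.iterate_succ_apply']
    exact transfer (sizes N M) (down_seq N M hN hM k) (down_seq N M hN hM (k + 1))
      (step_seq N M hN hM hT k hk) K _ (fun F => ih (by omega) F) F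

lemma exists_big (N M : ℕ) (hN : 1 ≤ N) (hM : 1 ≤ M) (hT : 3 ≤ N + M) (k : ℕ) (hk2 : 2 ≤ k)
    (hk : k < N + M + 4) : ∃ a b e h, a ≤ N ∧ b ≤ M ∧ e ≤ 1 ∧ h ≤ 1 ∧ 3 ≤ a + b + e + h ∧
      Dseq N M k a b e h := by
  match k, hk2 with
  | 2, _ =>
    simp only [Dseq, D2]
    by_cases h : 2 ≤ N
    · exact ⟨N, 0, 1, 0, le_refl _, by omega, le_refl _, by omega, by omega,
        (mk4_10 _ _ _ _ _ _).2 rfl⟩
    · exact ⟨0, M, 0, 1, by omega, by omega, by omega, by omega, by omega,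
        (mk4_01 _ _ _ _ _ _).2 rfl⟩
  | 3, _ =>
    simp only [Dseq, D3]
    exact ⟨N, M, 0, 0, le_refl _, le_refl _, by omega, by omega, by omega,
      (mk4_00 _ _ _ _ _ _).2 (Nat.zero_le _)⟩
  | 4, _ =>
    simp only [Dseq, D4]
    exact ⟨N - 1, M, 0, 1, by omega, le_refl _, by omega, by omega, by omega,
      (mk4_01 _ _ _ _ _ _).2 (by omega)⟩
  | k + 5, _ =>
    simp only [Dseq]
    rw [if_pos (by omega)]
    by_cases h : k + 3 ≤ N + M
    · refine ⟨min N 3, 3 - min N 3, 0, 0, by omega, by omega, by omega, by omega, by omega, ?_⟩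
      unfold DS
      rw [mk4_00]
      omega
    · by_cases h2 : 2 ≤ M
      · refine ⟨0, 2, 0, 1, by omega, by omega, by omega, by omega, by omega, ?_⟩
        unfold DS
        rw [mk4_01]
        omega
      · refine ⟨2, 0, 1, 0, by omega, by omega, by omega, by omega, by omega, ?_⟩
        unfold DS
        rw [mk4_10]
        omega

lemma not_iso_big (N M : ℕ) (hN : 1 ≤ N) (hM : 1 ≤ M) (hT : 3 ≤ N + M) (K : Type*) [Field K]
    (k : ℕ) (hk2 : 2 ≤ k) (hk : k < N + M + 4) :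
    ¬ Iso ((nfComplex K)^[k] (graphCplx (dumbbell (N + 1) (M + 1))))
      (graphCplx (dumbbell (N + 1) (M + 1))) := by
  rintro ⟨π, hπ⟩
  obtain ⟨a, b, e, h, ha, hb, he, hh, h3, hD⟩ := exists_big N M hN hM hT k hk2 hk
  obtain ⟨s0, s1, s2, s3⟩ := sizes N M
  obtain ⟨F, hF⟩ := exists_ty (cl (N + 1) (M + 1)) ![a, b, e, h] (by
    intro j
    rcases fin4_cases j with rfl | rfl | rfl | rfl
    · rw [s0]; exact ha
    · rw [s1]; exact hb
    · rw [s2]; exact he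
    · rw [s3]; exact hh)
  have f0 : ty (cl (N + 1) (M + 1)) F 0 = a := hF 0
  have f1 : ty (cl (N + 1) (M + 1)) F 1 = b := hF 1
  have f2 : ty (cl (N + 1) (M + 1)) F 2 = e := hF 2
  have f3 : ty (cl (N + 1) (M + 1)) F 3 = h := hF 3
  have hmem : F ∈ ((nfComplex K)^[k] (graphCplx (dumbbell (N + 1) (M + 1)))).faces := by
    rw [iter_mem N M hN hM hT K k hk.le]
    unfold TyP
    rw [f0, f1, f2, f3]
    exact hD
  have hc := card_le_two N M _ ((hπ F).1 hmem)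
  rw [Finset.card_map, card_eq_ty (cl (N + 1) (M + 1)), f0, f1, f2, f3] at hc
  omega

lemma not_iso_one (N M : ℕ) (hN : 1 ≤ N) (hM : 1 ≤ M) (hT : 3 ≤ N + M) (K : Type*) [Field K] :
    ¬ Iso ((nfComplex K)^[1] (graphCplx (dumbbell (N + 1) (M + 1))))
      (graphCplx (dumbbell (N + 1) (M + 1))) := by
  rintro ⟨π, hπ⟩
  obtain ⟨u, v, w, huv, huw, hvw⟩ : ∃ u v w, (dumbbell (N + 1) (M + 1)).Adj u v ∧
      (dumbbell (N + 1) (M + 1)).Adj u w ∧ (dumbbell (N + 1) (M + 1)).Adj v w := by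
    by_cases h : 2 ≤ N
    · refine ⟨Sum.inl ⟨0, by omega⟩, Sum.inl ⟨1, by omega⟩, Sum.inl ⟨2, by omega⟩, ?_, ?_, ?_⟩ <;>
      simp [dumbbell, dumbbellAdj]
    · refine ⟨Sum.inr ⟨0, by omega⟩, Sum.inr ⟨1, by omega⟩, Sum.inr ⟨2, by omega⟩, ?_, ?_, ?_⟩ <;>
      simp [dumbbell, dumbbellAdj]
  have key : ∀ x y, (dumbbell (N + 1) (M + 1)).Adj x y →
      (π.symm x).isLeft ≠ (π.symm y).isLeft := by
    intro x y hxy
    refine pair_D1 N M (fun h => hxy.ne (π.symm.injective h)) ?_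
    have h1 := iter_mem N M hN hM hT K 1 (by omega) {π.symm x, π.symm y}
    refine h1.1 ((hπ _).2 ?_)
    refine ⟨x, y, hxy, ?_⟩
    rw [Finset.map_insert, Finset.map_singleton]
    simp
  have k1 := key u v huv
  have k2 := key u w huw
  have k3 := key v w hvw
  revert k1 k2 k3
  cases (π.symm u).isLeft <;> cases (π.symm v).isLeft <;> cases (π.symm w).isLeft <;> simp

/-- For all `n, m ≥ 2` with `(n, m) ≠ (2, 2)` and every field `K`, the least `q > 0` with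
`δ^(q)(B_{n,m}) ≅ B_{n,m}` is `n + m + 2`. -/
theorem result (K : Type*) [Field K] (n m : ℕ) (hn : 2 ≤ n) (hm : 2 ≤ m)
    (hnm : (n, m) ≠ (2, 2)) :
    IsLeast {q : ℕ | 0 < q ∧
      Iso ((nfComplex K)^[q] (graphCplx (dumbbell n m))) (graphCplx (dumbbell n m))}
      (n + m + 2) := by
  obtain ⟨N, rfl⟩ : ∃ N, n = N + 1 := ⟨n - 1, by omega⟩
  obtain ⟨M, rfl⟩ : ∃ M, m = M + 1 := ⟨m - 1, by omega⟩
  have hN : 1 ≤ N := by omega
  have hM : 1 ≤ M := by omega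
  have hT : 3 ≤ N + M := by
    by_contra hcon
    apply hnm
    rw [Prod.mk.injEq]
    omega
  constructor
  · refine ⟨by omega, Equiv.refl _, fun F => ?_⟩
    rw [show N + 1 + (M + 1) + 2 = N + M + 4 by omega,
      iter_mem N M hN hM hT K (N + M + 4) le_rfl]
    have h1 : F.map (Equiv.refl (Fin (N + 1) ⊕ Fin (M + 1))).toEmbedding = F := by
      ext x; simp
    rw [h1, mem_B N M hN hM]
    have h2 : Dseq N M (N + M + 4) = D0 := by
      rw [show N + M + 4 = (N + M - 1) + 5 by omega]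
      simp only [Dseq]
      rw [if_neg (by omega)]
    rw [h2]
  · rintro q ⟨hq, hiso⟩
    by_contra hlt
    by_cases h1 : q = 1
    · subst h1
      exact not_iso_one N M hN hM hT K hiso
    · exact not_iso_big N M hN hM hT K q (by omega) (by omega) hiso


end Pool.Agent.Results.MP_0a7d83_co.DumbbellNFNumber
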